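import Mathlib

open Subgroup
open scoped commutatorElement

namespace Pool.Agent.H.MP_518c18_al

theorem exists_central {Q : Type*} [Group Q] [Group.IsNilpotent Q] {M N : Subgroup Q}
    [N.Normal] (h : ¬ N ≤ M) : ∃ x ∈ N, x ∉ M ∧ ∀ g, ⁅x, g⁆ ∈ M := by
  classical
  let S : ℕ → Subgroup Q := fun k => (fun H => ⁅H, ⊤⁆)^[k] N
  have hS : ∀ k, S (k + 1) = ⁅S k, ⊤⁆ := fun k => Function.iterate_succ_apply' _ _ _
  have h1 : ∀ k, S k ≤ (⊤ : Subgroup Q).lowerCentralSeries k ∧ S k ≤ N := fun k => by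
    induction k with
    | zero => exact ⟨le_top, le_rfl⟩
    | succ k ih =>
      rw [hS]
      exact ⟨commutator_mono ih.1 le_rfl, (commutator_mono ih.2 le_rfl).trans
        (commutator_le_left _ _)⟩
  obtain ⟨n, hn⟩ := Subgroup.nilpotent_iff_lowerCentralSeries.1 ‹Group.IsNilpotent Q›
  have hex : ∃ k, S k ≤ M := ⟨n, (h1 n).1.trans (hn ▸ bot_le)⟩
  have h0 : Nat.find hex ≠ 0 := fun e => h (by simpa [e, S] using Nat.find_spec hex)
  obtain ⟨k, hk⟩ := Nat.exists_eq_succ_of_ne_zero h0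
  have h2 := Nat.find_min hex (m := k) (by omega)
  have h3 := Nat.find_spec hex
  rw [hk, hS] at h3
  obtain ⟨x, hx, hx'⟩ := SetLike.not_le_iff_exists.1 h2
  exact ⟨x, (h1 k).2 hx, hx', fun g => h3 (commutator_mem_commutator hx (mem_top g))⟩

theorem units_index (p k : ℕ) (hp : p.Prime) :
    ∃ u : (ZMod (p ^ k))ˣ, (zpowers u).index ∣ 2 := by
  have cyc : IsCyclic (ZMod (p ^ k))ˣ → ∃ u : (ZMod (p ^ k))ˣ, (zpowers u).index ∣ 2 := by
    intro h
    obtain ⟨u, hu⟩ := IsCyclic.exists_generator (α := (ZMod (p ^ k))ˣ)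
    exact ⟨u, by rw [(eq_top_iff' _).2 hu]; simp⟩
  by_cases h2 : p = 2
  · subst h2
    by_cases hk : k ≤ 2
    · exact cyc ((ZMod.isCyclic_units_two_pow_iff k).2 hk)
    · obtain ⟨n, rfl⟩ : ∃ n, k = n + 2 := ⟨k - 2, by omega⟩
      let five : (ZMod (2 ^ (n + 2)))ˣ := ZMod.unitOfCoprime 5 (by
        exact Nat.Coprime.pow_right _ (by norm_num))
      have h5 : orderOf five = 2 ^ n := by
        rw [← orderOf_units, ← ZMod.orderOf_five n]
        rfl
      refine ⟨five, dvd_of_eq ?_⟩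
      have := (zpowers five).index_mul_card
      rw [Nat.card_zpowers, h5, Nat.card_eq_fintype_card, ZMod.card_units_eq_totient,
        Nat.totient_prime_pow Nat.prime_two (by omega)] at this
      have h : 0 < 2 ^ n := by positivity
      apply Nat.eq_of_mul_eq_mul_right h
      rw [this]
      simp [pow_succ, mul_comm]
  · exact cyc (ZMod.isCyclic_units_of_prime_pow p hp h2 k)

theorem gen_of_cyclic {Q R : Type*} [Group Q] [Group R] (φ : Q →* R) (u : R) (H : Subgroup Q)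
    (h : ∀ x ∈ H, φ x ∈ zpowers u) : ∃ y ∈ H, ∀ x ∈ H, ∃ k : ℤ, φ x = φ (y ^ k) := by
  have hle : H.map φ ≤ zpowers u := by
    rintro _ ⟨x, hx, rfl⟩
    exact h x hx
  have : IsCyclic (H.map φ) := isCyclic_of_le hle
  obtain ⟨⟨_, y, hy, rfl⟩, hg⟩ := IsCyclic.exists_generator (α := H.map φ)
  refine ⟨y, hy, fun x hx => ?_⟩
  obtain ⟨k, hk⟩ := hg ⟨φ x, x, hx, rfl⟩
  exact ⟨k, by simpa using (congrArg Subtype.val hk).symm⟩

theorem three_gen {Q : Type*} [Group Q] [Finite Q] {p : ℕ} (hp : p.Prime) (hQ : IsPGroup p Q)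
    (A : Subgroup Q) [A.Normal] [IsCyclic A] (hA : ∀ g, (∀ a ∈ A, g * a = a * g) → g ∈ A) :
    ∃ x y z : Q, closure {x, y, z} = ⊤ := by
  have := Fact.mk hp
  obtain ⟨k, hk⟩ := (hQ.to_subgroup A).exists_card_eq
  have hu : ∃ u : (ZMod (Nat.card A))ˣ, (zpowers u).index ∣ 2 := hk ▸ units_index p k hp
  obtain ⟨u, hu⟩ := hu
  let φ : Q →* (ZMod (Nat.card A))ˣ :=
    (IsCyclic.mulAutMulEquiv A).toMonoidHom.comp MulAut.conjNormal
  have hφ : ∀ g, φ g = 1 → g ∈ A := fun g hg => hA g fun a ha => by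
    have h1 : MulAut.conjNormal (H := A) g = 1 := by
      simpa [φ] using hg
    have := congrArg (fun f : MulAut A => (f ⟨a, ha⟩ : Q)) h1
    simp only [MulAut.conjNormal_apply, MulAut.one_apply] at this
    calc g * a = g * a * g⁻¹ * g := by group
      _ = a * g := by rw [this]
  obtain ⟨⟨x, hx⟩, hgx⟩ := IsCyclic.exists_generator (α := A)
  obtain ⟨y, hy, hgy⟩ := gen_of_cyclic φ u ((zpowers u).comap φ) fun x hx => hx
  have hi : ((zpowers u).comap φ).index ∣ 2 := by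
    rw [index_comap]
    exact (relIndex_dvd_index_of_normal _ _).trans hu
  have hz : ∃ z : Q, ∀ g, g ∈ (zpowers u).comap φ ∨ g * z ∈ (zpowers u).comap φ := by
    rcases (Nat.dvd_prime Nat.prime_two).1 hi with h | h
    · exact ⟨1, fun g => Or.inl (index_eq_one.1 h ▸ mem_top g)⟩
    · obtain ⟨z, hz⟩ := index_eq_two_iff.1 h
      exact ⟨z, fun g => (hz g).or.symm⟩
  obtain ⟨z, hz⟩ := hz
  refine ⟨x, y, z, (eq_top_iff' _).2 fun g => ?_⟩
  have mx : x ∈ closure ({x, y, z} : Set Q) := subset_closure (by simp)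
  have my : y ∈ closure ({x, y, z} : Set Q) := subset_closure (by simp)
  have mz : z ∈ closure ({x, y, z} : Set Q) := subset_closure (by simp)
  have h1 : ∀ g ∈ (zpowers u).comap φ, g ∈ closure ({x, y, z} : Set Q) := fun g hg => by
    obtain ⟨j, hj⟩ := hgy g hg
    obtain ⟨i, hi⟩ := hgx ⟨g * (y ^ j)⁻¹, hφ _ (by rw [map_mul, map_inv, hj, mul_inv_cancel])⟩
    have e : x ^ i = g * (y ^ j)⁻¹ := by simpa using congrArg Subtype.val hi
    have : g = x ^ i * y ^ j := by rw [e]; group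
    rw [this]
    exact mul_mem (zpow_mem mx _) (zpow_mem my _)
  rcases hz g with h | h
  · exact h1 g h
  · simpa using mul_mem (h1 _ h) (inv_mem mz)

theorem cyclic_of_omega {A : Type*} [CommGroup A] [Finite A] {p : ℕ} (hp : p.Prime)
    (hA : IsPGroup p A) (h : Nat.card (powMonoidHom p : A →* A).ker ≤ p) : IsCyclic A := by
  classical
  have := Fact.mk hp
  have := Fintype.ofFinite A
  have h1 : ∀ j, Nat.card (powMonoidHom (p ^ j) : A →* A).ker ≤ p ^ j := fun j => by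
    induction j with
    | zero =>
      have : (powMonoidHom (p ^ 0) : A →* A).ker = ⊥ := by
        ext x
        simp
      rw [this]
      simp
    | succ j ih =>
      let K := (powMonoidHom (p ^ (j + 1)) : A →* A).ker
      let f : K →* A := (powMonoidHom p).comp K.subtype
      have e := f.ker.card_mul_index
      rw [index_ker] at e
      have a1 : Nat.card f.ker ≤ p := le_trans (Nat.card_le_card_of_injective
        (fun x : f.ker => (⟨x.1.1, x.2⟩ : (powMonoidHom p : A →* A).ker))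
        fun x y hxy => Subtype.ext (Subtype.ext (by simpa using hxy))) h
      have a2 : Nat.card f.range ≤ p ^ j := le_trans (card_le_of_le (by
        rintro _ ⟨⟨x, hx⟩, rfl⟩
        simpa [f, K, ← pow_mul, pow_succ'] using hx)) ih
      calc Nat.card K = Nat.card f.ker * Nat.card f.range := e.symm
        _ ≤ p * p ^ j := Nat.mul_le_mul a1 a2
        _ = p ^ (j + 1) := by ring
  refine isCyclic_of_card_pow_eq_one_le fun n hn => ?_
  obtain ⟨k, hk⟩ := hA.exists_card_eq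
  obtain ⟨j, -, hj⟩ := (Nat.dvd_prime_pow hp).1 (Nat.gcd_dvd_right n (p ^ k))
  calc _ ≤ Nat.card (powMonoidHom (p ^ j) : A →* A).ker := by
        rw [← Fintype.card_coe, ← Nat.card_eq_fintype_card]
        refine Nat.card_le_card_of_injective (fun x => ⟨x.1, ?_⟩)
          fun x y hxy => Subtype.ext (by simpa using hxy)
        have hx : x.1 ^ n = 1 := (Finset.mem_filter.1 x.2).2
        rw [MonoidHom.mem_ker, powMonoidHom_apply, ← hj, pow_gcd_eq_one]
        exact ⟨hx, by rw [← hk, pow_card_eq_one']⟩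
    _ ≤ p ^ j := h1 j
    _ ≤ n := hj ▸ Nat.gcd_le_left _ hn

theorem dichotomy {Q : Type*} [Group Q] [Finite Q] {p : ℕ} (hp : p.Prime) (hQ : IsPGroup p Q) :
    (∃ x y z : Q, closure {x, y, z} = ⊤) ∨ ∃ a b g : Q, a ^ p = 1 ∧ b ^ p = 1 ∧ a ≠ 1 ∧
      b ∉ zpowers a ∧ (∀ x, x * a = a * x) ∧ ∀ x, ∃ k : ℤ, x * g ^ k * b = b * (x * g ^ k) := by
  classical
  have := Fact.mk hp
  have := hQ.isNilpotent
  obtain ⟨A, ⟨hn, hc⟩, hmax⟩ := Set.Finite.exists_maximal
    (s := {A : Subgroup Q | A.Normal ∧ ∀ a ∈ A, ∀ b ∈ A, a * b = b * a}) (Set.toFinite _)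
    ⟨⊥, inferInstance, by simp⟩
  have hA : ∀ g, (∀ a ∈ A, g * a = a * g) → g ∈ A := by
    by_contra hne
    have h1 : ¬ centralizer (A : Set Q) ≤ A := fun h => hne fun g hg =>
      h (mem_centralizer_iff.2 fun a ha => (hg a ha).symm)
    obtain ⟨x, hx, hxA, hx'⟩ := exists_central h1
    have hxa : ∀ a ∈ A, a * x = x * a := mem_centralizer_iff.1 hx
    let B : Subgroup Q :=
      { carrier := {y | ∃ a ∈ A, ∃ k : ℤ, y = a * x ^ k}
        one_mem' := ⟨1, one_mem _, 0, by simp⟩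
        mul_mem' := by
          rintro _ _ ⟨a, ha, k, rfl⟩ ⟨b, hb, l, rfl⟩
          refine ⟨a * b, mul_mem ha hb, k + l, ?_⟩
          have := (Commute.zpow_right (hxa b hb : Commute b x) k).eq
          rw [zpow_add, mul_assoc, ← mul_assoc (x ^ k), ← this]
          group
        inv_mem' := by
          rintro _ ⟨a, ha, k, rfl⟩
          refine ⟨a⁻¹, inv_mem ha, -k, ?_⟩
          have := (Commute.zpow_right (hxa _ (inv_mem ha) : Commute a⁻¹ x) (-k)).eq
          rw [this]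
          group }
    have hAB : A ≤ B := fun a ha => ⟨a, ha, 0, by simp⟩
    have hxB : x ∈ B := ⟨1, one_mem _, 1, by simp⟩
    refine hxA (hmax (y := B) ⟨⟨?_⟩, ?_⟩ hAB hxB)
    · rintro _ ⟨a, ha, k, rfl⟩ g
      have e : g * (a * x ^ k) * g⁻¹ = g * a * g⁻¹ * (⁅x, g⁆⁻¹ * x) ^ k := by
        have : ⁅x, g⁆⁻¹ * x = g * x * g⁻¹ := by rw [commutatorElement_def]; group
        rw [this, conj_zpow]
        group
      rw [e]
      exact mul_mem (hAB (hn.conj_mem a ha g))
        (zpow_mem (mul_mem (hAB (inv_mem (hx' g))) hxB) k)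
    · rintro _ ⟨a, ha, k, rfl⟩ _ ⟨b, hb, l, rfl⟩
      have c1 : Commute a b := hc a ha b hb
      have c2 : Commute a x := hxa a ha
      have c3 : Commute b x := hxa b hb
      exact (Commute.mul_left (c1.mul_right (c2.zpow_right l))
        ((c3.zpow_right k).symm.mul_right (Commute.zpow_zpow_self x k l))).eq
  by_cases hcyc : IsCyclic A
  · exact Or.inl (three_gen hp hQ A hA)
  right
  let Ω : Subgroup Q :=
    { carrier := {y | y ∈ A ∧ y ^ p = 1}
      one_mem' := ⟨one_mem _, one_pow _⟩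
      mul_mem' := fun {a b} ha hb => ⟨mul_mem ha.1 hb.1, by
        rw [Commute.mul_pow (hc a ha.1 b hb.1), ha.2, hb.2, one_mul]⟩
      inv_mem' := fun {a} ha => ⟨inv_mem ha.1, by rw [inv_pow, ha.2, inv_one]⟩ }
  have : Ω.Normal := ⟨fun y hy g => ⟨hn.conj_mem y hy.1 g, by rw [conj_pow, hy.2]; simp⟩⟩
  have hbig : ∀ a : Q, a ^ p = 1 → ¬ Ω ≤ zpowers a := fun a ha h => hcyc (by
    letI : CommGroup A := { (inferInstance : Group A) with
      mul_comm := fun a b => Subtype.ext (hc a a.2 b b.2) }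
    refine cyclic_of_omega hp (hQ.to_subgroup A) ?_
    refine (Nat.card_le_card_of_injective (β := zpowers a)
      (fun x => ⟨x.1.1, h ⟨x.1.2, congrArg Subtype.val x.2⟩⟩)
      fun x y hxy => Subtype.ext (Subtype.ext (by simpa using hxy))).trans ?_
    rw [Nat.card_zpowers]
    exact Nat.le_of_dvd hp.pos (orderOf_dvd_of_pow_eq_one ha))
  obtain ⟨a, ha, ha1, ha'⟩ := exists_central (M := ⊥) (by simpa using hbig 1 (one_pow _))
  have hca : ∀ x, x * a = a * x := fun x =>
    (commutatorElement_eq_one_iff_mul_comm.1 (mem_bot.1 (ha' x))).symm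
  obtain ⟨b, hb, hb1, hb'⟩ := exists_central (hbig a ha.2)
  have hcb : ∀ g x, x * ⁅b, g⁆ = ⁅b, g⁆ * x := fun g x => by
    obtain ⟨k, hk⟩ := hb' g
    rw [← hk]
    exact (Commute.zpow_right (hca x : Commute x a) k).eq
  let φ : Q →* Q := MonoidHom.mk' (fun g => ⁅b, g⁆) fun g h => by
    have := hcb h g
    calc ⁅b, g * h⁆ = ⁅b, g⁆ * (g * ⁅b, h⁆) * g⁻¹ := by
          simp only [commutatorElement_def]; group
      _ = _ := by rw [this]; group
  obtain ⟨g, -, hg⟩ := gen_of_cyclic φ a ⊤ fun x _ => hb' x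
  refine ⟨a, b, g, ha.2, hb.2, fun e => ha1 (e ▸ one_mem _), hb1, hca, fun x => ?_⟩
  obtain ⟨k, hk⟩ := hg x (mem_top x)
  refine ⟨-k, (commutatorElement_eq_one_iff_mul_comm.1 ?_).symm⟩
  change φ (x * g ^ (-k)) = 1
  rw [map_mul, hk, ← map_mul]
  simp

end Pool.Agent.H.MP_518c18_al
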