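import Mathlib

open Subgroup
open scoped commutatorElement

namespace Pool.Agent.H.MP_518c18_al

theorem conj_of_agree {G : Type*} [Group G] [Finite G] {p : ℕ} (hp : p.Prime) (N : Subgroup G)
    [N.Normal] (hc : ∀ a ∈ N, ∀ b ∈ N, a * b = b * a) (he : ∀ a ∈ N, a ^ p = 1)
    (L : Subgroup G) (hL : ¬ p ∣ L.index) (σ τ : G →* G) (h : ∀ g, σ g * (τ g)⁻¹ ∈ N)
    (hl : ∀ l ∈ L, σ l = τ l) : ∃ c ∈ N, ∀ g, σ g = c * τ g * c⁻¹ := by
  classical
  letI : CommGroup N := { (inferInstance : Group N) with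
    mul_comm := fun a b => Subtype.ext (hc a a.2 b b.2) }
  have := Fintype.ofFinite (G ⧸ L)
  let d : G → N := fun g => ⟨σ g * (τ g)⁻¹, h g⟩
  let act : G → MulAut N := fun g => MulAut.conjNormal (τ g)
  have hd : ∀ g x, d (g * x) = d g * act g (d x) := fun g x => by
    apply Subtype.ext
    simp only [d, act, map_mul, coe_mul, MulAut.conjNormal_apply]
    have := hc _ (h g) _ (‹N.Normal›.conj_mem _ (h x) (τ g))
    have e := hc _ (h g) _ (‹N.Normal›.conj_mem _ (h x) (σ g))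
    have e2 : σ g * (σ x * (τ x)⁻¹) * (σ g)⁻¹ = τ g * (σ x * (τ x)⁻¹) * (τ g)⁻¹ := by
      calc _ = σ g * (τ g)⁻¹ * (τ g * (σ x * (τ x)⁻¹) * (τ g)⁻¹) * (σ g * (τ g)⁻¹)⁻¹ := by group
        _ = _ := by rw [this]; group
    group
  have hdl : ∀ g, ∀ l ∈ L, d (g * l) = d g := fun g l hl' => by
    apply Subtype.ext
    simp only [d, map_mul, hl l hl']
    group
  have hq : ∀ g (q : G ⧸ L), d (g • q).out = d (g * q.out) := fun g q => by
    have : (((g * q.out : G) : G ⧸ L)) = ((g • q).out : G) := by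
      rw [QuotientGroup.out_eq', ← smul_eq_mul, MulAction.Quotient.coe_smul_out]
    have h2 := QuotientGroup.eq.1 this
    rw [← hdl (g * q.out) _ h2]
    congr 1
    group
  let c0 : N := ∏ q : G ⧸ L, d q.out
  have h0 : ∀ g, c0 = d g ^ L.index * act g c0 := fun g => by
    calc c0 = ∏ q : G ⧸ L, d (g • q).out :=
          (Fintype.prod_bijective (fun q : G ⧸ L => g • q) (MulAction.bijective g) _ _
            fun _ => rfl).symm
      _ = ∏ q : G ⧸ L, d g * act g (d q.out) := by simp only [hq, hd]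
      _ = _ := by
        rw [Finset.prod_mul_distrib, Finset.prod_const, Finset.card_univ, index_eq_card,
          Nat.card_eq_fintype_card, ← map_prod]
  obtain ⟨k, -, hk⟩ := Nat.exists_mul_mod_eq_one_of_coprime
    ((Nat.Prime.coprime_iff_not_dvd hp).2 hL).symm hp.one_lt
  have hpow : ∀ x : N, x ^ (L.index * k) = x := fun x => by
    have hx : x ^ p = 1 := Subtype.ext (he x x.2)
    rw [← Nat.mod_add_div (L.index * k) p, hk, pow_add, pow_mul, hx]
    simp
  refine ⟨(c0 ^ k : N), (c0 ^ k).2, fun g => ?_⟩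
  have h1 : c0 ^ k = d g * act g (c0 ^ k) := by
    conv_lhs => rw [h0 g, mul_pow, ← pow_mul, hpow, ← map_pow]
  have h2 := congrArg Subtype.val h1
  simp only [d, act, coe_mul, MulAut.conjNormal_apply] at h2
  generalize ((c0 ^ k : N) : G) = c at h2
  calc σ g = σ g * (τ g)⁻¹ * (τ g * c * (τ g)⁻¹) * τ g * c⁻¹ := by group
    _ = _ := by rw [← h2]

theorem exists_section {G : Type*} [Group G] (N K : Subgroup G) [N.Normal] (h1 : K ⊓ N = ⊥)
    (h2 : K.map (QuotientGroup.mk' N) = ⊤) :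
    ∃ σ : G →* G, (∀ g, σ g * g⁻¹ ∈ N) ∧ ∀ k ∈ K, ∀ g, k * g⁻¹ ∈ N → σ g = k := by
  have hex : ∀ g, ∃ k ∈ K, k * g⁻¹ ∈ N := fun g => by
    obtain ⟨k, hk, e⟩ : (QuotientGroup.mk' N g) ∈ K.map (QuotientGroup.mk' N) := h2 ▸ mem_top _
    refine ⟨k, hk, (QuotientGroup.eq_one_iff _).1 ?_⟩
    simpa [mul_inv_eq_one] using e
  choose s hs hs' using hex
  have hu : ∀ k ∈ K, ∀ g, k * g⁻¹ ∈ N → s g = k := fun k hk g hg => by
    have : s g * k⁻¹ ∈ K ⊓ N := mem_inf.2 ⟨mul_mem (hs g) (inv_mem hk), by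
      have := mul_mem (hs' g) (inv_mem hg)
      simpa [mul_assoc] using this⟩
    rw [h1, mem_bot, mul_inv_eq_one] at this
    exact this
  refine ⟨MonoidHom.mk' s fun a b => hu _ (mul_mem (hs a) (hs b)) _ ?_, hs', hu⟩
  have := mul_mem (‹N.Normal›.conj_mem _ (hs' b) (s a)) (hs' a)
  simpa [mul_assoc] using this

theorem solv_gen (r : ℕ) : ∀ (n : ℕ) (G : Type) [Group G] [Finite G] [Group.IsSolvable G],
    Nat.card G = n → (∀ p : ℕ, p.Prime → ∃ s : Finset G, s.card ≤ r ∧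
      ¬ p ∣ (closure (s : Set G)).index) →
    ∃ y : Fin (r + 2) → G, closure (Set.range y) = ⊤ := by
  classical
  intro n
  induction n using Nat.strong_induction_on with
  | _ n ih =>
  intro G _ _ _ hn hs
  rcases subsingleton_or_nontrivial G with hG | hG
  · exact ⟨fun _ => 1, Subsingleton.elim _ _⟩
  obtain ⟨N, ⟨hN, hN0⟩, hmin⟩ := Set.Finite.exists_minimal
    (s := {N : Subgroup G | N.Normal ∧ N ≠ ⊥}) (Set.toFinite _) ⟨⊤, inferInstance, top_ne_bot⟩
  have hmin' : ∀ M : Subgroup G, M.Normal → M ≤ N → M = ⊥ ∨ N ≤ M := fun M hM h => by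
    by_cases e : M = ⊥
    · exact Or.inl e
    · exact Or.inr (hmin (y := M) ⟨hM, e⟩ h)
  have hc : ∀ a ∈ N, ∀ b ∈ N, a * b = b * a := fun a ha b hb => by
    have hlt := Group.IsSolvable.commutator_lt_of_ne_bot hN0
    rcases hmin' _ inferInstance hlt.le with h | h
    · exact commutatorElement_eq_one_iff_mul_comm.1
        (mem_bot.1 (h ▸ commutator_mem_commutator ha hb))
    · exact absurd h hlt.not_ge
  have h1 : 1 < Nat.card N := (one_lt_card_iff_ne_bot N).2 hN0
  obtain ⟨p, hp, hpN⟩ := Nat.exists_prime_and_dvd h1.ne'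
  have := Fact.mk hp
  have he : ∀ a ∈ N, a ^ p = 1 := by
    let Ω : Subgroup G :=
      { carrier := {y | y ∈ N ∧ y ^ p = 1}
        one_mem' := ⟨one_mem _, one_pow _⟩
        mul_mem' := fun {a b} ha hb => ⟨mul_mem ha.1 hb.1, by
          rw [Commute.mul_pow (hc a ha.1 b hb.1), ha.2, hb.2, one_mul]⟩
        inv_mem' := fun {a} ha => ⟨inv_mem ha.1, by rw [inv_pow, ha.2, inv_one]⟩ }
    have hΩ : Ω.Normal := ⟨fun y hy g => ⟨hN.conj_mem y hy.1 g, by rw [conj_pow, hy.2]; simp⟩⟩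
    rcases hmin' Ω hΩ (fun y hy => hy.1) with h | h
    · obtain ⟨x, hx⟩ := exists_prime_orderOf_dvd_card' p hpN
      have hx1 : x.1 ∈ Ω := ⟨x.2, by rw [← coe_pow, ← hx, pow_orderOf_eq_one]; rfl⟩
      rw [h, mem_bot] at hx1
      have : x = 1 := Subtype.ext hx1
      rw [this, orderOf_one] at hx
      exact absurd hx.symm hp.one_lt.ne'
    · exact fun a ha => (h ha).2
  obtain ⟨y', hy'⟩ := ih (Nat.card (G ⧸ N)) (by
    rw [← hn, card_eq_card_quotient_mul_card_subgroup N]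
    exact lt_mul_of_one_lt_right Nat.card_pos h1) (G ⧸ N) rfl (fun q hq => by
      obtain ⟨s, hs1, hs2⟩ := hs q hq
      refine ⟨s.image (QuotientGroup.mk' N), Finset.card_image_le.trans hs1, fun h => hs2 ?_⟩
      rw [Finset.coe_image, ← MonoidHom.map_closure] at h
      exact h.trans (index_map_dvd _ (QuotientGroup.mk'_surjective N)))
  choose y hy using fun i => QuotientGroup.mk'_surjective N (y' i)
  by_contra hne
  let K : (Fin (r + 2) → N) → Subgroup G := fun m => closure (Set.range fun i => m i * y i)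
  have hK2 : ∀ m, (K m).map (QuotientGroup.mk' N) = ⊤ := fun m => by
    rw [MonoidHom.map_closure, ← Set.range_comp, ← hy']
    congr 2
    funext i
    simp only [Function.comp, map_mul, hy]
    rw [QuotientGroup.mk'_apply, (QuotientGroup.eq_one_iff _).2 (m i).2, one_mul]
  have hKN : ∀ m g, ∃ k ∈ K m, k * g⁻¹ ∈ N := fun m g => by
    obtain ⟨k, hk, e⟩ : (QuotientGroup.mk' N g) ∈ (K m).map (QuotientGroup.mk' N) :=
      hK2 m ▸ mem_top _
    refine ⟨k, hk, (QuotientGroup.eq_one_iff _).1 ?_⟩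
    simpa [mul_inv_eq_one] using e
  have hK1 : ∀ m, K m ⊓ N = ⊥ := fun m => by
    have hnm : (K m ⊓ N).Normal := ⟨fun x hx g => by
      obtain ⟨k, hk, hk'⟩ := hKN m g
      have e := hc _ hk' _ (hN.conj_mem x hx.2 g)
      have e2 : g * x * g⁻¹ = k * x * k⁻¹ := by
        calc g * x * g⁻¹ = k * g⁻¹ * (g * x * g⁻¹) * (k * g⁻¹)⁻¹ := by rw [e]; group
          _ = _ := by group
      exact mem_inf.2 ⟨e2 ▸ mul_mem (mul_mem hk (mem_inf.1 hx).1) (inv_mem hk),
        hN.conj_mem x hx.2 g⟩⟩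
    rcases hmin' _ hnm inf_le_right with h | h
    · exact h
    · refine absurd ⟨_, (eq_top_iff' (K m)).2 fun g => ?_⟩ hne
      obtain ⟨k, hk, hk'⟩ := hKN m g
      simpa using mul_mem (inv_mem (mem_inf.1 (h hk')).1) hk
  choose σ hσ hσ' using fun m => exists_section N (K m) (hK1 m) (hK2 m)
  have hσy : ∀ m i, σ m (y i) = m i * y i := fun m i =>
    hσ' m _ (subset_closure ⟨i, rfl⟩) _ (by simp)
  obtain ⟨s, hs1, hs2⟩ := hs p hp
  let Φ : (Fin (r + 2) → N) → (s → N) := fun m x => ⟨σ m x * (x : G)⁻¹, hσ m x⟩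
  have hfib : ∀ m m', Φ m = Φ m' → ∃ c : N, ∀ g, σ m g = c * σ m' g * (c : G)⁻¹ :=
    fun m m' h => by
      obtain ⟨c, hc, hc'⟩ := conj_of_agree hp N hc he _ hs2 (σ m) (σ m') (fun g => by
        simpa [mul_assoc] using mul_mem (hσ m g) (inv_mem (hσ m' g)))
        (fun l hl => MonoidHom.eqOn_closure (fun x hx => by
          simpa [Φ] using congrFun h ⟨x, hx⟩) hl)
      exact ⟨⟨c, hc⟩, hc'⟩
  let rep : (Fin (r + 2) → N) → (Fin (r + 2) → N) := fun m => Function.invFun Φ (Φ m)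
  have hrep : ∀ m, Φ m = Φ (rep m) := fun m => (Function.invFun_eq ⟨m, rfl⟩).symm
  choose c hcc using fun m => hfib m (rep m) (hrep m)
  have hinj : Function.Injective fun m => (Φ m, c m) := fun m m' h => by
    simp only [Prod.mk.injEq] at h
    funext i
    have e : rep m = rep m' := by simp only [rep, h.1]
    have := hcc m (y i)
    rw [e, h.2, ← hcc m', hσy, hσy] at this
    exact Subtype.ext (mul_right_cancel this)
  have := Nat.card_le_card_of_injective _ hinj
  simp only [Nat.card_prod, Nat.card_fun, Nat.card_fin] at this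
  have h3 : Nat.card N ^ s.card * Nat.card N < Nat.card N ^ (r + 2) := by
    rw [← pow_succ]
    exact Nat.pow_lt_pow_right h1 (by omega)
  simp at this
  omega

end Pool.Agent.H.MP_518c18_al
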