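import Pool.Agent.H.MP_518c18_al.A
import Pool.Agent.H.MP_518c18_al.B

open Subgroup

namespace Pool.Agent.H.MP_518c18_al

theorem norm_trick {F U : Type*} [Field F] [AddCommGroup U] [Module F U] {p : ℕ} (hp : 0 < p)
    (hF : (p : F) ≠ 0) (α β : Module.End F U) (hc : Commute α β) (ha : α ^ p = 1)
    (hb : β ^ p = 1) (h1 : ∀ i u, (α ^ i * β) u = u → β u = u)
    (h2 : ∀ j, 0 < j → j < p → ∀ u, (α ^ j) u = u → β u = u) : β = 1 := by
  have key : ∀ e : Module.End F U, e ^ p = 1 → (∀ u, e u = u → β u = u) →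
      (β - 1) * ∑ j ∈ Finset.range p, e ^ j = 0 := fun e he h => by
    ext u
    have := congrArg (fun f : Module.End F U => f u) (mul_geom_sum e p)
    simp only [he, sub_self, Module.End.mul_apply, LinearMap.sub_apply, Module.End.one_apply,
      LinearMap.zero_apply, sub_eq_zero] at this ⊢
    exact h _ this
  have e1 : ∑ i ∈ Finset.range p, (β - 1) * ∑ j ∈ Finset.range p, (α ^ i * β) ^ j = 0 :=
    Finset.sum_eq_zero fun i _ => key _ (by
      rw [(hc.pow_left i).mul_pow, ← pow_mul, mul_comm, pow_mul, ha, hb]; simp) (h1 i)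
  rw [← Finset.mul_sum, Finset.sum_comm, Finset.mul_sum,
    Finset.sum_eq_single_of_mem 0 (Finset.mem_range.2 hp)] at e1
  · ext u
    have := congrArg (fun f : Module.End F U => f u) e1
    simp only [pow_zero, Finset.sum_const, Finset.card_range, Module.End.mul_apply,
      LinearMap.smul_apply, Module.End.one_apply, map_nsmul, LinearMap.zero_apply,
      LinearMap.sub_apply] at this
    rw [← Nat.cast_smul_eq_nsmul F, smul_eq_zero] at this
    exact sub_eq_zero.1 (this.resolve_left hF)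
  · intro j hj hj0
    have : ∑ i ∈ Finset.range p, (α ^ i * β) ^ j = (∑ i ∈ Finset.range p, (α ^ j) ^ i) * β ^ j := by
      rw [Finset.sum_mul]
      refine Finset.sum_congr rfl fun i _ => ?_
      rw [(hc.pow_left i).mul_pow, ← pow_mul, ← pow_mul, mul_comm i j]
    rw [this, ← mul_assoc, key _ (by rw [← pow_mul, mul_comm, pow_mul, ha, one_pow])
      (h2 j (Nat.pos_of_ne_zero hj0) (Finset.mem_range.1 hj)), zero_mul]

variable {G F V : Type} [Group G] [Field F] [AddCommGroup V] [Module F V]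
  (ρ : Representation F G V)

/-- the pointwise stabiliser of a set of vectors -/
def fx (U : Set V) : Subgroup G where
  carrier := {g | ∀ u ∈ U, ρ g u = u}
  one_mem' := by simp
  mul_mem' := fun {a b} ha hb u hu => by simp [hb u hu, ha u hu]
  inv_mem' := fun {a} ha u hu => by
    conv_lhs => rw [← ha u hu]
    simp

/-- a strictly decreasing chain of stabilisers inside `K` -/
def Ch (U : Set V) : ℕ → Subgroup G → Prop
  | 0, _ => True
  | m + 1, K => ∃ u ∈ U, ¬ K ≤ fx ρ {u} ∧ Ch U m (K ⊓ fx ρ {u})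

theorem Ch.mono {U : Set V} : ∀ {m : ℕ} {N K : Subgroup G}, Ch ρ U m N → N ≤ K → Ch ρ U m K
  | 0, _, _, _, _ => trivial
  | _ + 1, _, _, ⟨u, hu, h1, h2⟩, h =>
    ⟨u, hu, fun e => h1 (h.trans e), h2.mono (inf_le_inf_right _ h)⟩

theorem Ch.append {U W : Set V} (hW : W ⊆ U) {N : Subgroup G} (hN : N ≤ fx ρ W) {l : ℕ}
    (h2 : Ch ρ U l N) : ∀ {m : ℕ} {K : Subgroup G}, Ch ρ W m K → N ≤ K → Ch ρ U (l + m) K
  | 0, _, _, h => h2.mono ρ h
  | _ + 1, _, ⟨u, hu, h1, h3⟩, h => ⟨u, hW hu, h1, Ch.append hW hN h2 h3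
      (le_inf h fun g hg v hv => by rw [Set.mem_singleton_iff.1 hv]; exact hN hg u hu)⟩

/-- `K` is generated by `C` and at most `t` further elements -/
def Gen (K C : Subgroup G) (t : ℕ) : Prop :=
  ∃ s : Finset G, s.card ≤ t ∧ (s : Set G) ⊆ K ∧ K ≤ closure (s : Set G) ⊔ C

theorem Gen.trans {K N C : Subgroup G} {t l : ℕ} (h1 : Gen K N t) (h2 : Gen N C l) (h : N ≤ K) :
    Gen K C (t + l) := by
  classical
  obtain ⟨s, a1, a2, a3⟩ := h1
  obtain ⟨r, b1, b2, b3⟩ := h2
  refine ⟨s ∪ r, (Finset.card_union_le _ _).trans (add_le_add a1 b1), ?_, a3.trans (sup_le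
    (le_sup_of_le_left (Subgroup.closure_mono (by simp))) (b3.trans (sup_le_sup_right
      (Subgroup.closure_mono (by simp)) _)))⟩
  rw [Finset.coe_union]
  exact Set.union_subset a2 (b2.trans h)

theorem card_lt [Finite G] {A B : Subgroup G} (h : A < B) : Nat.card A < Nat.card B :=
  Set.ncard_lt_ncard (s := (A : Set G)) (t := (B : Set G)) h (Set.toFinite _)

theorem pgen [Finite G] {p : ℕ} (hp : p.Prime) (hF : (p : F) ≠ 0) :
    ∀ (n : ℕ) (K : Subgroup G) (U : Submodule F V), IsPGroup p K →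
      (∀ k ∈ K, ∀ u ∈ U, ρ k u ∈ U) → Nat.card K - Nat.card (K ⊓ fx ρ U :) = n →
      ¬ K ≤ fx ρ U → ∃ m, Ch ρ U (m + 1) K ∧ Gen K (K ⊓ fx ρ U) (4 * m + 3) := by
  classical
  intro n
  induction n using Nat.strong_induction_on with
  | _ n ih =>
  intro K U hK hU hn hne
  let ψ : K →* Module.End F U :=
    { toFun := fun k => (ρ k).restrict (hU k k.2)
      map_one' := by ext; simp
      map_mul' := fun a b => by ext; simp }
  have hψ : ∀ k : K, k ∈ ψ.ker ↔ (k : G) ∈ fx ρ U := fun k =>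
    ⟨fun h u hu => congrArg Subtype.val (congrArg (fun f : Module.End F U => f ⟨u, hu⟩) h),
      fun h => LinearMap.ext fun u => Subtype.ext (h u u.2)⟩
  let π := QuotientGroup.mk' ψ.ker
  have hπ : ∀ x y, π x = π y ↔ ψ x = ψ y := fun x y => by
    simp only [π, QuotientGroup.mk'_apply, QuotientGroup.eq, MonoidHom.mem_ker]
    constructor
    · intro h
      rw [← mul_one (ψ x), ← h, ← map_mul, mul_inv_cancel_left]
    · intro h
      rw [map_mul, ← h, ← map_mul, inv_mul_cancel, map_one]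
  have hs := QuotientGroup.mk'_surjective ψ.ker
  rcases dichotomy hp (hK.to_quotient ψ.ker) with ⟨x, y, z, h⟩ | ⟨a, b, g, ha, hb, ha1, hb1, hc, hg⟩
  · obtain ⟨x, rfl⟩ := hs x
    obtain ⟨y, rfl⟩ := hs y
    obtain ⟨z, rfl⟩ := hs z
    refine ⟨0, ?_, {x.1, y.1, z.1}, Finset.card_le_three, ?_, fun k hk => ?_⟩
    · by_contra hcon
      refine hne fun k hk u hu => ?_
      by_contra h2
      exact hcon ⟨u, hu, fun e => h2 (e hk u rfl), trivial⟩
    · simp [Set.insert_subset_iff]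
    · have h1 : π ⟨k, hk⟩ ∈ (closure {x, y, z}).map π := by
        rw [MonoidHom.map_closure]
        simp only [Set.image_insert_eq, Set.image_singleton]
        exact h ▸ mem_top _
      obtain ⟨k', hk', e⟩ := h1
      have h2 : (k' : G) ∈ closure (({x.1, y.1, z.1} : Finset G) : Set G) := by
        have := mem_map_of_mem K.subtype hk'
        rw [MonoidHom.map_closure] at this
        simpa [Set.image_insert_eq] using this
      have h3 : (k' : G)⁻¹ * k ∈ K ⊓ fx ρ U :=
        mem_inf.2 ⟨mul_mem (inv_mem k'.2) hk, (hψ (k'⁻¹ * ⟨k, hk⟩)).1 (QuotientGroup.eq.1 (show (k' : K ⧸ ψ.ker) = (⟨k, hk⟩ : K) from e))⟩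
      simpa using mul_mem (mem_sup_left h2) (mem_sup_right h3)
  obtain ⟨a, rfl⟩ := hs a
  obtain ⟨b, rfl⟩ := hs b
  obtain ⟨g, rfl⟩ := hs g
  change π a ^ p = 1 at ha
  change π b ^ p = 1 at hb
  change π a ≠ 1 at ha1
  change π b ∉ zpowers (π a) at hb1
  have hca : ∀ x, Commute x (π a) := hc
  have hex : ∃ e : K, π e ≠ 1 ∧ (∀ x, Commute x (π b) → Commute x (π e)) ∧
      ∃ u : U, ψ e u = u ∧ ψ b u ≠ u := by
    by_contra hcon
    push Not at hcon
    have := Fact.mk hp
    refine hb1 ?_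
    rw [(hπ b 1).2, map_one]
    · exact one_mem _
    rw [map_one]
    refine norm_trick hp.pos hF (ψ a) (ψ b) ?_ ?_ ?_ (fun i u hu => ?_) fun j h0 hj u hu => ?_
    · have := (hπ (a * b) (b * a)).1 (by rw [map_mul, map_mul, (hca (π b)).eq])
      rwa [map_mul, map_mul] at this
    · rw [← map_pow, ← map_one ψ, ← hπ, map_pow, ha, map_one]
    · rw [← map_pow, ← map_one ψ, ← hπ, map_pow, hb, map_one]
    · refine hcon (a ^ i * b) (fun e => hb1 ?_) (fun x hx => ?_) u (by rwa [map_mul, map_pow])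
      · rw [map_mul, map_pow, mul_eq_one_iff_inv_eq] at e
        exact e ▸ inv_mem (pow_mem (mem_zpowers _) _)
      · rw [map_mul, map_pow]
        exact ((hca x).pow_right i).mul_right hx
    · refine hcon (a ^ j) ?_ (fun x _ => ?_) u (by rwa [map_pow])
      · rw [map_pow]
        exact pow_ne_one_of_lt_orderOf h0.ne' (by rwa [orderOf_eq_prime ha ha1])
      · rw [map_pow]
        exact (hca x).pow_right j
  obtain ⟨e, he1, hec, u, hu1, hu2⟩ := hex
  let K0 : Subgroup G := ((centralizer {π b}).comap π).map K.subtype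
  have hK0 : ∀ k : K, (k : G) ∈ K0 ↔ Commute (π k) (π b) := fun k => by
    simp only [K0, mem_map, mem_comap, mem_centralizer_singleton_iff]
    exact ⟨fun ⟨x, hx, e⟩ => (Subtype.ext e : x = k) ▸ hx, fun h => ⟨k, h, rfl⟩⟩
  have h0K : K0 ≤ K := map_subtype_le _
  let W : Submodule F V := U ⊓ LinearMap.eqLocus (ρ e) LinearMap.id
  have hW : ∀ v, v ∈ W ↔ v ∈ U ∧ ρ e v = v := fun v => Iff.rfl
  have hWU : (W : Set V) ⊆ U := fun v hv => hv.1
  have hWi : ∀ k ∈ K0, ∀ v ∈ W, ρ k v ∈ W := fun k hk v hv => by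
    have h1 := hec _ ((hK0 ⟨k, h0K hk⟩).1 hk)
    have h2 := (hπ (⟨k, h0K hk⟩ * e) (e * ⟨k, h0K hk⟩)).1 (by rw [map_mul, map_mul, h1.eq])
    have h3 := congrArg Subtype.val (congrArg (fun f : Module.End F U => f ⟨v, hv.1⟩) h2)
    refine (hW _).2 ⟨hU k (h0K hk) v hv.1, ?_⟩
    simp only [ψ, MonoidHom.coe_mk, OneHom.coe_mk, LinearMap.restrict_coe_apply, coe_mul,
      map_mul, Module.End.mul_apply] at h3
    rw [← h3, ((hW v).1 hv).2]
  have hC0 : K ⊓ fx ρ U ≤ K0 ⊓ fx ρ W := fun k hk => mem_inf.2 ⟨(hK0 ⟨k, hk.1⟩).2 (by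
    rw [(QuotientGroup.eq_one_iff (⟨k, hk.1⟩ : K)).2 ((hψ _).2 hk.2) |> (id : π _ = 1 → _)]
    exact Commute.one_left _), fun v hv => hk.2 v hv.1⟩
  have heN : (e : G) ∈ K0 ⊓ fx ρ W :=
    mem_inf.2 ⟨(hK0 e).2 (hec _ (Commute.refl _)).symm, fun v hv => ((hW v).1 hv).2⟩
  have heC : (e : G) ∉ fx ρ U := fun h => he1 ((QuotientGroup.eq_one_iff e).2 ((hψ e).2 h))
  have hbN : ¬ K0 ≤ fx ρ W := fun h => hu2 (Subtype.ext
    (h ((hK0 b).2 (Commute.refl _)) u ((hW _).2 ⟨u.2, congrArg Subtype.val hu1⟩)))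
  have c1 : Nat.card (K ⊓ fx ρ U :) < Nat.card (K0 ⊓ fx ρ W :) :=
    card_lt (lt_of_le_not_ge hC0 fun h => heC (h heN).2)
  have c2 : Nat.card (K0 ⊓ fx ρ W :) < Nat.card K0 :=
    card_lt (lt_of_le_not_ge inf_le_left fun h => hbN fun k hk => (h hk).2)
  have c3 : Nat.card K0 ≤ Nat.card K := card_le_of_le h0K
  have e1 : K0 ⊓ fx ρ W ⊓ fx ρ U = K ⊓ fx ρ U :=
    le_antisymm (inf_le_inf_right _ (inf_le_left.trans h0K)) (le_inf hC0 inf_le_right)
  obtain ⟨m1, a1, a2⟩ := ih _ (by omega) K0 W (hK.to_le h0K) hWi rfl hbN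
  obtain ⟨m2, b1, b2⟩ := ih _ (by rw [e1]; omega) (K0 ⊓ fx ρ W) U
    (hK.to_le (inf_le_left.trans h0K)) (fun k hk => hU k (h0K hk.1)) rfl fun h => heC (h heN)
  rw [e1] at b2
  have g1 : Gen K K0 1 := ⟨{g.1}, by simp, by simp, fun k hk => by
    obtain ⟨j, hj⟩ := hg (π ⟨k, hk⟩)
    have h1 : ((⟨k, hk⟩ * g ^ j : K) : G) ∈ K0 := (hK0 _).2 (by
      rw [map_mul, map_zpow]; exact hj)
    have h2 : (g : G) ∈ closure (({g.1} : Finset G) : Set G) := subset_closure (by simp)
    simpa using mul_mem (mem_sup_right h1) (mem_sup_left (inv_mem (zpow_mem h2 j)))⟩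
  refine ⟨m2 + 1 + m1, (Ch.append ρ hWU inf_le_right b1 a1 inf_le_left).mono ρ h0K, ?_⟩
  have := g1.trans (a2.trans b2 inf_le_left) h0K
  convert this using 1
  ring

theorem generic (hF : Cardinal.mk (Subgroup G) < Cardinal.mk F) (u w : V) :
    ∃ v, fx ρ {v} = fx ρ {u} ⊓ fx ρ {w} := by
  have : ¬ Function.Injective fun t : F => fx ρ {u + t • w} := fun h =>
    (Cardinal.mk_le_of_injective h).not_gt hF
  obtain ⟨t, s, h, hts⟩ := Function.not_injective_iff.1 this
  refine ⟨u + t • w, le_antisymm (fun g hg => ?_) fun g hg v hv => ?_⟩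
  · have h1 := hg _ rfl
    have h2 := (h ▸ hg : g ∈ fx ρ {u + s • w}) _ rfl
    simp only [map_add, map_smul] at h1 h2
    have h3 : (t - s) • (ρ g w - w) = 0 := by linear_combination (norm := module) h1 - h2
    have h4 : ρ g w = w := sub_eq_zero.1 ((smul_eq_zero.1 h3).resolve_left (sub_ne_zero.2 hts))
    rw [h4, add_left_inj] at h1
    exact mem_inf.2 ⟨fun v hv => hv ▸ h1, fun v hv => hv ▸ h4⟩
  · rw [Set.mem_singleton_iff.1 hv, map_add, map_smul, hg.1 u rfl, hg.2 w rfl]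

theorem size_eq (v : V) : (Set.range fun g : G => ρ g v).ncard = (fx ρ {v}).index := by
  letI : MulAction G V := MulAction.compHom V ρ
  have : fx ρ {v} = MulAction.stabilizer G v := by
    ext g
    exact ⟨fun h => h v rfl, fun h w hw => hw ▸ h⟩
  rw [this, MulAction.index_stabilizer]
  rfl

theorem ch_le [Finite G] (hF : Cardinal.mk (Subgroup G) < Cardinal.mk F) :
    ∀ (m : ℕ) (K : Subgroup G) (v : V), Ch ρ Set.univ m K → K ≤ fx ρ {v} →
      m + 1 ≤ {k | (∃ w, (fx ρ {w}).index = k) ∧ (fx ρ {v}).index ≤ k}.ncard := by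
  have hfin : ∀ v, {k | (∃ w, (fx ρ {w}).index = k) ∧ (fx ρ {v}).index ≤ k}.Finite := fun v =>
    (Set.finite_range (fun H : Subgroup G => H.index)).subset fun k hk =>
      hk.1.elim fun w hw => ⟨_, hw⟩
  intro m
  induction m with
  | zero =>
    intro K v _ _
    exact (Set.ncard_pos (hfin v)).2 ⟨_, ⟨v, rfl⟩, le_rfl⟩
  | succ m ih =>
    rintro K v ⟨u, -, h1, h2⟩ hK
    obtain ⟨w, hw⟩ := generic ρ hF v u
    have hlt : (fx ρ {v}).index < (fx ρ {w}).index := index_strictAnti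
      (lt_of_le_not_ge (hw ▸ inf_le_left) fun h => h1 (hK.trans (h.trans (hw ▸ inf_le_right))))
    refine (ih _ w h2 (hw ▸ inf_le_inf_right _ hK)).trans_lt (Set.ncard_lt_ncard ⟨fun k hk =>
      ⟨hk.1, hlt.le.trans hk.2⟩, fun h => ?_⟩ (hfin v))
    exact (h ⟨⟨v, rfl⟩, le_rfl⟩).2.not_gt hlt

theorem main [Finite G] (hρ : Function.Injective ρ)
    (hF : Cardinal.mk (Subgroup G) < Cardinal.mk F)
    (hc : ringChar F = 0 ∨ Nat.Coprime (ringChar F) (Nat.card G)) (H : Subgroup G)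
    [Group.IsSolvable H] : ∃ s : Finset G,
      s.card + 2 ≤ 4 * Set.ncard {k : ℕ | ∃ v : V, Set.ncard (Set.range fun g : G => ρ g v) = k} ∧
        closure (s : Set G) = H := by
  classical
  simp only [size_eq]
  set n := Set.ncard {k : ℕ | ∃ v : V, (fx ρ {v}).index = k}
  have hn : ∀ m K, Ch ρ Set.univ m K → m + 1 ≤ n := fun m K h => by
    have h0 : fx ρ {(0 : V)} = ⊤ := (eq_top_iff' _).2 fun g v hv => by
      rw [Set.mem_singleton_iff.1 hv, map_zero]
    refine (ch_le ρ hF m K 0 h (h0 ▸ le_top)).trans (Set.ncard_le_ncard (fun k hk => hk.1) ?_)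
    exact (Set.finite_range (fun H : Subgroup G => H.index)).subset fun k hk =>
      hk.elim fun w hw => ⟨_, hw⟩
  have h1 := hn 0 ⊥ trivial
  obtain ⟨y, hy⟩ := solv_gen (4 * (n - 1)) _ H rfl fun p hp => by
    have := Fact.mk hp
    obtain ⟨P⟩ : Nonempty (Sylow p H) := inferInstance
    by_cases hP : (P : Subgroup H) = ⊥
    · exact ⟨∅, by simp, by simpa [hP] using P.not_dvd_index⟩
    have hPG : IsPGroup p ((P : Subgroup H).map H.subtype) := P.isPGroup'.map _
    have hfx : fx ρ ((⊤ : Submodule F V) : Set V) = ⊥ := (eq_bot_iff_forall _).2 fun g hg =>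
      hρ (by ext v; simpa using hg v trivial)
    have hpG : p ∣ Nat.card G := by
      obtain ⟨k, hk⟩ := hPG.exists_card_eq
      have h2 : 1 < Nat.card ((P : Subgroup H).map H.subtype) :=
        (one_lt_card_iff_ne_bot _).2 (by rwa [Ne, map_eq_bot_iff_of_injective _ H.subtype_injective])
      refine (dvd_pow_self p ?_).trans (hk ▸ card_subgroup_dvd_card _)
      rintro rfl
      rw [hk] at h2
      simp at h2
    have hpF : (p : F) ≠ 0 := fun h => by
      have h2 := (ringChar.spec F p).1 h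
      rcases hc with h3 | h3
      · rw [h3, zero_dvd_iff] at h2
        exact hp.ne_zero h2
      · exact CharP.ringChar_ne_one (Nat.Coprime.eq_one_of_dvd h3 (h2.trans hpG))
    obtain ⟨m, a1, s, a2, a3, a4⟩ := pgen ρ hp hpF _ _ ⊤ hPG (fun _ _ _ _ => trivial) rfl (by
      rw [hfx, le_bot_iff, map_eq_bot_iff_of_injective _ H.subtype_injective]
      exact hP)
    have h3 := hn _ _ a1
    rw [hfx, inf_bot_eq, sup_bot_eq] at a4
    refine ⟨s.preimage H.subtype H.subtype_injective.injOn, ?_, fun h => P.not_dvd_index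
      (h.trans (index_dvd_of_le ?_))⟩
    · refine le_trans (Finset.card_le_card_of_injOn H.subtype (fun x hx => by simpa using hx)
        H.subtype_injective.injOn) (by omega)
    · rw [← map_le_map_iff_of_injective H.subtype_injective, MonoidHom.map_closure]
      refine a4.trans (Subgroup.closure_mono fun x hx => ?_)
      obtain ⟨x, -, rfl⟩ := a3 hx
      exact ⟨x, by simpa using hx, rfl⟩
  refine ⟨Finset.univ.image fun i => (y i : G), ?_, ?_⟩
  · have := Finset.card_image_le (s := Finset.univ) (f := fun i => (y i : G))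
    simp only [Finset.card_univ, Fintype.card_fin] at this
    omega
  · have := congrArg (map H.subtype) hy
    rw [MonoidHom.map_closure, ← Set.range_comp, ← MonoidHom.range_eq_map, range_subtype] at this
    rw [Finset.coe_image, Finset.coe_univ, Set.image_univ]
    exact this

end Pool.Agent.H.MP_518c18_al
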